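import Mathlib

set_option autoImplicit false

namespace Pool.Agent.TH461.J963

open Finset

lemma root_factor (ρ : ℝ) (h0 : 0 ≤ ρ) (h1 : ρ ≤ 1 / 2) (w z : ℂ) (hw : ‖w‖ = ρ) :
    1 / 2 * (max 1 ‖z‖) * |ρ - min 1 ‖z‖| ≤ ‖w - z‖ := by
  have hz := norm_nonneg z
  have h2 : |‖w‖ - ‖z‖| ≤ ‖w - z‖ := abs_norm_sub_norm_le w z
  rw [hw] at h2
  rcases le_total 1 ‖z‖ with h | h
  · rw [max_eq_right h, min_eq_left h]
    have h3 : |ρ - 1| ≤ 1 := by rw [abs_le]; constructor <;> linarith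
    have h4 : ‖z‖ - ρ ≤ |ρ - ‖z‖| := by rw [abs_sub_comm]; exact le_abs_self _
    have h5 : 1 / 2 * ‖z‖ * |ρ - 1| ≤ 1 / 2 * ‖z‖ * 1 :=
      mul_le_mul_of_nonneg_left h3 (by positivity)
    linarith
  · rw [max_eq_left h, min_eq_right h]
    have h3 : 0 ≤ |ρ - ‖z‖| := abs_nonneg _
    linarith

/-- Lower bound of a polynomial on a small circle (from the Mahler measure). -/
theorem poly_circle_lower (q : Polynomial ℂ) (j : ℕ) (ρ : ℝ)
    (h0 : 0 ≤ ρ) (h1 : ρ ≤ 1 / 2) (w : ℂ) (hw : ‖w‖ = ρ) :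
    ‖q.coeff j‖ * (1 / 4) ^ q.natDegree * (q.roots.map (fun z => |ρ - min 1 ‖z‖|)).prod
      ≤ ‖q.eval w‖ := by
  have hP0 : 0 ≤ (q.roots.map (fun z => |ρ - min 1 ‖z‖|)).prod := by
    apply Multiset.prod_nonneg
    intro a ha
    obtain ⟨z, -, rfl⟩ := Multiset.mem_map.1 ha
    exact abs_nonneg _
  have hcard : Multiset.card q.roots = q.natDegree := IsAlgClosed.card_roots_eq_natDegree
  -- the coefficient
  have hc : ‖q.coeff j‖ ≤ 2 ^ q.natDegree * q.mahlerMeasure := by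
    refine (q.norm_coeff_le_choose_mul_mahlerMeasure j).trans ?_
    refine mul_le_mul_of_nonneg_right ?_ q.mahlerMeasure_nonneg
    exact_mod_cast Nat.choose_le_two_pow _ _
  rw [Polynomial.mahlerMeasure_eq_leadingCoeff_mul_prod_roots] at hc
  -- the value
  have hv : ‖q.eval w‖ = ‖q.leadingCoeff‖ * (q.roots.map (fun z => ‖w - z‖)).prod := by
    rw [(IsAlgClosed.splits q).eval_eq_prod_roots, norm_mul]
    congr 1
    induction q.roots using Multiset.induction_on with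
    | empty => simp
    | cons a s ih => simp [ih]
  rw [hv]
  have hprod : (1 / 2 : ℝ) ^ q.natDegree * (q.roots.map (fun z => max 1 ‖z‖)).prod *
      (q.roots.map (fun z => |ρ - min 1 ‖z‖|)).prod ≤ (q.roots.map (fun z => ‖w - z‖)).prod := by
    rw [← hcard]
    have h2 : (1 / 2 : ℝ) ^ (Multiset.card q.roots) * (q.roots.map (fun z => max 1 ‖z‖)).prod *
        (q.roots.map (fun z => |ρ - min 1 ‖z‖|)).prod =
        (q.roots.map (fun z => 1 / 2 * (max 1 ‖z‖) * |ρ - min 1 ‖z‖|)).prod := by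
      rw [Multiset.prod_map_mul, Multiset.prod_map_mul, Multiset.map_const', Multiset.prod_replicate]
    rw [h2]
    apply Multiset.prod_map_le_prod_map₀
    · intro z _; positivity
    · intro z _; exact root_factor ρ h0 h1 w z hw
  set P := (q.roots.map (fun z => |ρ - min 1 ‖z‖|)).prod with hP
  set M := (q.roots.map (fun z => max 1 ‖z‖)).prod with hM
  calc ‖q.coeff j‖ * (1 / 4) ^ q.natDegree * P
      ≤ (2 ^ q.natDegree * (‖q.leadingCoeff‖ * M)) * (1 / 4) ^ q.natDegree * P := by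
        gcongr
    _ = ‖q.leadingCoeff‖ * ((1 / 2) ^ q.natDegree * M * P) := by
        have : (1 / 2 : ℝ) ^ q.natDegree = 2 ^ q.natDegree * (1 / 4) ^ q.natDegree := by
          rw [← mul_pow]; norm_num
        rw [this]; ring
    _ ≤ _ := mul_le_mul_of_nonneg_left hprod (norm_nonneg _)

end Pool.Agent.TH461.J963
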