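import Mathlib

set_option autoImplicit false

namespace Pool.Agent.TH461.J963

open Finset

/-- A locally optimal colouring gives a large subset with small row sums. -/
theorem coloring {α : Type*} [DecidableEq α] (F : Finset α) (W : α → α → ℝ)
    (hW0 : ∀ a b, 0 ≤ W a b) (hsymm : ∀ a b, W a b = W b a) (S : ℝ)
    (hS : ∀ a ∈ F, ∑ b ∈ F.erase a, W a b ≤ S) (J : ℕ) (hJ : 0 < J) :
    ∃ G : Finset α, G ⊆ F ∧ F.card ≤ J * G.card ∧
      ∀ a ∈ G, ∑ b ∈ G.erase a, W a b ≤ S / J := by
  classical
  have : NeZero J := ⟨hJ.ne'⟩
  -- colourings of the subtype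
  let T : (F → Fin J) → ℝ := fun c =>
    ∑ a : F, ∑ b : F, if a ≠ b ∧ c b = c a then W a b else 0
  obtain ⟨c, hc⟩ := Finite.exists_min T
  -- row sums
  let R : F → Fin J → ℝ := fun a i => ∑ b : F, if a ≠ b ∧ c b = i then W a b else 0
  have hopt : ∀ (a : F) (i : Fin J), R a (c a) ≤ R a i := by
    intro a i
    by_cases hi : i = c a
    · rw [hi]
    have h1 := hc (Function.update c a i)
    -- split T
    have hT : ∀ d : F → Fin J, T d =
        2 * (∑ b : F, if a ≠ b ∧ d b = d a then W a b else 0) +
        ∑ x ∈ univ.erase a, ∑ b ∈ univ.erase a, if x ≠ b ∧ d b = d x then W x b else 0 := by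
      intro d
      show (∑ x : F, ∑ b : F, if x ≠ b ∧ d b = d x then W x b else 0) = _
      rw [← Finset.add_sum_erase univ _ (mem_univ a)]
      have h2 : ∑ x ∈ univ.erase a, ∑ b : F, (if x ≠ b ∧ d b = d x then W x b else 0) =
          (∑ x ∈ univ.erase a, if x ≠ a ∧ d a = d x then W x a else 0) +
          ∑ x ∈ univ.erase a, ∑ b ∈ univ.erase a, if x ≠ b ∧ d b = d x then W x b else 0 := by
        rw [← Finset.sum_add_distrib]
        refine Finset.sum_congr rfl fun x _ => ?_
        rw [← Finset.add_sum_erase univ _ (mem_univ a)]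
      rw [h2]
      have h3 : (∑ x ∈ univ.erase a, if x ≠ a ∧ d a = d x then W (x : α) a else 0) =
          ∑ b : F, if a ≠ b ∧ d b = d a then W a b else 0 := by
        rw [← Finset.add_sum_erase univ (fun b : F => if a ≠ b ∧ d b = d a then W (a : α) b else 0)
          (mem_univ a)]
        simp only [ne_eq, not_true_eq_false, false_and, if_false, zero_add]
        refine Finset.sum_congr rfl fun x _ => ?_
        rw [hsymm]
        congr 1
        apply propext
        constructor
        · rintro ⟨h4, h5⟩; exact ⟨fun h => h4 h.symm, h5.symm⟩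
        · rintro ⟨h4, h5⟩; exact ⟨fun h => h4 h.symm, h5.symm⟩
      rw [h3]
      ring
    rw [hT c, hT (Function.update c a i)] at h1
    have h2 : (∑ x ∈ univ.erase a, ∑ b ∈ univ.erase a,
        if x ≠ b ∧ (Function.update c a i) b = (Function.update c a i) x then W x b else 0) =
        ∑ x ∈ univ.erase a, ∑ b ∈ univ.erase a, if x ≠ b ∧ c b = c x then W (x : α) b else 0 := by
      refine Finset.sum_congr rfl fun x hx => Finset.sum_congr rfl fun b hb => ?_
      rw [Function.update_of_ne (Finset.ne_of_mem_erase hx),
        Function.update_of_ne (Finset.ne_of_mem_erase hb)]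
    rw [h2] at h1
    have h3 : (∑ b : F, if a ≠ b ∧ (Function.update c a i) b = (Function.update c a i) a
        then W (a : α) b else 0) = R a i := by
      refine Finset.sum_congr rfl fun b _ => ?_
      by_cases hb : b = a
      · subst hb; simp
      · rw [Function.update_of_ne hb, Function.update_self]
    rw [h3] at h1
    have h4 : (∑ b : F, if a ≠ b ∧ c b = c a then W (a : α) b else 0) = R a (c a) := rfl
    rw [h4] at h1
    linarith
  have hrow : ∀ a : F, ∑ i : Fin J, R a i = ∑ b ∈ F.erase a, W a b := by
    intro a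
    show (∑ i : Fin J, ∑ b : F, if a ≠ b ∧ c b = i then W a b else 0) = _
    rw [Finset.sum_comm]
    have h1 : ∀ b : F, (∑ i : Fin J, if a ≠ b ∧ c b = i then W (a : α) b else 0) =
        if a ≠ b then W (a : α) b else 0 := by
      intro b
      by_cases hab : a = b
      · simp [hab]
      · simp [hab]
    rw [Finset.sum_congr rfl (fun b _ => h1 b)]
    have h2 : (∑ b : F, if a ≠ b then W (a : α) b else 0) =
        ∑ b : F, (fun b : α => if (a : α) ≠ b then W (a : α) b else 0) b := by
      refine Finset.sum_congr rfl fun b _ => ?_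
      by_cases hab : a = b
      · simp [hab]
      · have : (a : α) ≠ b := fun h => hab (Subtype.ext h)
        simp [hab, this]
    rw [h2, Finset.sum_coe_sort F (fun b : α => if (a : α) ≠ b then W (a : α) b else 0),
      ← Finset.sum_filter]
    refine Finset.sum_congr ?_ fun _ _ => rfl
    ext b
    simp only [mem_filter, mem_erase]
    constructor
    · rintro ⟨h3, h4⟩; exact ⟨fun h => h4 h.symm, h3⟩
    · rintro ⟨h3, h4⟩; exact ⟨h4, fun h => h3 h.symm⟩
  have hsmall : ∀ a : F, R a (c a) ≤ S / J := by
    intro a
    have hJ' : (0 : ℝ) < J := by exact_mod_cast hJ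
    rw [le_div_iff₀ hJ']
    calc R a (c a) * J = ∑ _i : Fin J, R a (c a) := by
          rw [Finset.sum_const, Finset.card_univ, Fintype.card_fin, nsmul_eq_mul]; ring
      _ ≤ ∑ i : Fin J, R a i := Finset.sum_le_sum fun i _ => hopt a i
      _ = ∑ b ∈ F.erase a, W a b := hrow a
      _ ≤ S := hS a a.2
  -- largest colour class
  obtain ⟨i, -, hi⟩ := Finset.exists_max_image (univ : Finset (Fin J))
    (fun i => (univ.filter (fun a : F => c a = i)).card) ⟨0, mem_univ _⟩
  refine ⟨(univ.filter (fun a : F => c a = i)).map (Function.Embedding.subtype _), ?_, ?_, ?_⟩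
  · intro x hx
    simp only [Finset.mem_map, mem_filter, mem_univ, true_and,
      Function.Embedding.subtype_apply] at hx
    obtain ⟨a, -, rfl⟩ := hx
    exact a.2
  · rw [Finset.card_map]
    have h1 : F.card = ∑ j : Fin J, (univ.filter (fun a : F => c a = j)).card := by
      rw [← Fintype.card_coe F, ← Finset.card_univ]
      exact Finset.card_eq_sum_card_fiberwise (fun a _ => mem_univ _)
    rw [h1]
    calc ∑ j : Fin J, (univ.filter (fun a : F => c a = j)).card
        ≤ ∑ _j : Fin J, (univ.filter (fun a : F => c a = i)).card :=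
          Finset.sum_le_sum fun j hj => hi j hj
      _ = J * (univ.filter (fun a : F => c a = i)).card := by
          rw [Finset.sum_const, Finset.card_univ, Fintype.card_fin, smul_eq_mul]
  · intro x hx
    simp only [Finset.mem_map, mem_filter, mem_univ, true_and,
      Function.Embedding.subtype_apply] at hx
    obtain ⟨a, ha, rfl⟩ := hx
    refine le_trans (le_of_eq ?_) (hsmall a)
    show _ = ∑ b : F, if a ≠ b ∧ c b = c a then W (a : α) b else 0
    rw [← Finset.sum_filter]
    symm
    refine Finset.sum_bij (fun b _ => (b : α)) ?_ ?_ ?_ ?_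
    · intro b hb
      simp only [mem_filter, mem_univ, true_and] at hb
      simp only [mem_erase, Finset.mem_map, mem_filter, mem_univ, true_and,
        Function.Embedding.subtype_apply]
      refine ⟨fun h => hb.1 (Subtype.ext h.symm), b, ?_, rfl⟩
      rw [hb.2, ha]
    · intro b _ b' _ h
      exact Subtype.ext h
    · intro b hb
      simp only [mem_erase, Finset.mem_map, mem_filter, mem_univ, true_and,
        Function.Embedding.subtype_apply] at hb
      obtain ⟨h1, b', h2, rfl⟩ := hb
      refine ⟨b', ?_, rfl⟩
      simp only [mem_filter, mem_univ, true_and]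
      refine ⟨fun h => h1 (by rw [h]), ?_⟩
      rw [h2, ha]
    · intro b _
      rfl

end Pool.Agent.TH461.J963
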