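import Mathlib

set_option autoImplicit false

namespace Pool.Agent.TH461.J963

open Finset Polynomial

/-- Lagrange interpolation in homogeneous form. -/
theorem interp_identity {ι : Type*} [DecidableEq ι] (x : ι → ℂ) (S : Finset ι)
    (hS : Set.InjOn x S) (s m : ℕ) (hm : S.card = m + 1) (hs : s ≤ m) :
    (X ^ (m - s) : ℂ[X]) = ∑ l ∈ S, C ((-x l) ^ s / ∏ j ∈ S.erase l, (x j - x l)) *
      ∏ j ∈ S.erase l, (1 + C (x j) * X) := by
  apply Polynomial.eq_of_infinite_eval_eq
  refine Set.Infinite.mono (s := {z : ℂ | z ≠ 0}) ?_ ?_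
  · intro z hz
    have hz0 : z ≠ 0 := hz
    simp only [Set.mem_setOf_eq]
    have hinj : Set.InjOn (fun i => -x i) (S : Set ι) := by
      intro a ha b hb h
      exact hS ha hb (neg_injective h)
    have h1 := Lagrange.eq_interpolate (s := S) (v := fun i => -x i) (f := (X ^ s : ℂ[X])) hinj
      (by rw [Polynomial.degree_X_pow, hm]; exact_mod_cast Nat.lt_succ_of_le hs)
    have h2 := congrArg (Polynomial.eval z⁻¹) h1
    rw [Polynomial.eval_pow, Polynomial.eval_X, Lagrange.interpolate_apply,
      Polynomial.eval_finset_sum] at h2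
    have h3 : z ^ (m - s) = z ^ m * (z⁻¹) ^ s := by
      rw [inv_pow, ← div_eq_mul_inv, pow_sub₀ z hz0 hs, div_eq_mul_inv]
    rw [Polynomial.eval_pow, Polynomial.eval_X, h3, h2, Polynomial.eval_finset_sum,
      Finset.mul_sum]
    refine Finset.sum_congr rfl fun l hl => ?_
    rw [Polynomial.eval_mul, Polynomial.eval_C, Polynomial.eval_mul, Polynomial.eval_C,
      Polynomial.eval_pow, Polynomial.eval_X, Lagrange.basis, Polynomial.eval_prod,
      Polynomial.eval_prod]
    have hcard : (S.erase l).card = m := by rw [Finset.card_erase_of_mem hl, hm]; rfl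
    rw [← hcard, ← Finset.prod_const]
    rw [mul_left_comm, ← Finset.prod_mul_distrib, div_mul_eq_mul_div, mul_div_assoc,
      ← Finset.prod_div_distrib]
    congr 1
    refine Finset.prod_congr rfl fun j hj => ?_
    have hne : x j - x l ≠ 0 := by
      rw [sub_ne_zero]
      intro h
      exact (Finset.ne_of_mem_erase hj) (hS (Finset.mem_of_mem_erase hj) hl h)
    simp only [Lagrange.basisDivisor, Polynomial.eval_mul, Polynomial.eval_C, Polynomial.eval_sub,
      Polynomial.eval_X, Polynomial.eval_add, Polynomial.eval_one]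
    have hne' : -x l - -x j ≠ 0 := by
      intro h; apply hne; linear_combination h
    field_simp
    ring
  · exact (Set.finite_singleton (0 : ℂ)).infinite_compl.mono (by intro z hz; simpa using hz)

end Pool.Agent.TH461.J963
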